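import Pool.Agent.MP_cce4c9_lc.H14.Ext

/-! The maximal unramified abelian extension of exponent `l` of a function field, as a Kummer
extension. -/

set_option autoImplicit false

open WithZero Polynomial
open scoped IntermediateField

namespace Pool.Agent.MP_cce4c9_lc.H14

open Pool.Agent.MP_cce4c9_lc.H87 Pool.Agent.MP_cce4c9_lc.H7

theorem exists_root_one (k : Type) {F : Type} [Field k] [IsAlgClosed k] [Field F] [Algebra k F]
    {l : ℕ} (hl : 0 < l) {r r' : F} (h0 : r ≠ 0) (h : r' ^ l = r ^ l) :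
    ∃ z : k, z ^ l = 1 ∧ r' = algebraMap k F z * r := by
  have h1 : (r' / r) ^ l = 1 := by rw [div_pow, h, div_self (pow_ne_zero _ h0)]
  have h2 : r' / r ∈ Set.range (algebraMap k F) := by
    by_contra H
    refine transc H (IsIntegral.isAlgebraic ?_)
    exact IsIntegral.of_pow hl (by rw [h1]; exact isIntegral_one)
  obtain ⟨z, hz⟩ := h2
  refine ⟨z, (algebraMap k F).injective (by rw [map_pow, hz, h1, map_one]), ?_⟩
  rw [hz, div_mul_cancel₀ _ h0]

/-- The `l`-th roots of the functions all of whose orders are divisible by `l`. -/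
def rts (k K Ω : Type) [Field k] [Field K] [Algebra k K] [Field Ω] [Algebra K Ω] (l : ℕ) :
    Set Ω :=
  {r | ∃ f : K, f ≠ 0 ∧ (∀ v : Place k K, (l : ℤ) ∣ v.ord f) ∧ r ^ l = algebraMap K Ω f}

section

variable {k K Ω : Type} [Field k] [IsAlgClosed k] [Field K] [Algebra k K]
  [Field Ω] [IsAlgClosed Ω] [Algebra k Ω] [Algebra K Ω] [IsScalarTower k K Ω]
  [Algebra.IsAlgebraic K Ω] {l : ℕ}

theorem rts_fd [Fact l.Prime] (hV : Module.Finite (ZMod l) (VV k K l)) :
    FiniteDimensional K (IntermediateField.adjoin K (rts k K Ω l)) := by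
  have hl : 0 < l := (Fact.out : l.Prime).pos
  have : NeZero l := ⟨hl.ne'⟩
  have : Finite (VV k K l) := Module.finite_of_finite (ZMod l)
  choose f hf hf' using fun a : VV k K l => mem_VV.1 a.2
  choose r hr using fun a : VV k K l =>
    IsAlgClosed.exists_pow_nat_eq (algebraMap K Ω (f a : K)) hl
  have : Finite (Set.range r) := (Set.finite_range r).to_subtype
  have h1 : FiniteDimensional K (IntermediateField.adjoin K (Set.range r)) :=
    IntermediateField.finiteDimensional_adjoin fun x _ => Algebra.IsIntegral.isIntegral x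
  have h2 : IntermediateField.adjoin K (rts k K Ω l) = IntermediateField.adjoin K (Set.range r) := by
    apply le_antisymm
    · rw [IntermediateField.adjoin_le_iff]
      rintro x ⟨g, g0, hg, hx⟩
      let a : VV k K l := ⟨Hl.mk l (Units.mk0 g g0), mem_VV.2 ⟨_, rfl, hg⟩⟩
      obtain ⟨c, hc⟩ := (Hl.mk_eq_mk l _ _).1 (hf a).symm
      have hc' : g = f a * c ^ l := by simpa using congrArg Units.val hc
      have ha : r a ≠ 0 := fun e => by
        have := hr a
        rw [e, zero_pow hl.ne', eq_comm, map_eq_zero] at this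
        exact (f a).ne_zero this
      obtain ⟨z, -, hz⟩ := exists_root_one k hl (r := r a * algebraMap K Ω c) (r' := x)
        (mul_ne_zero ha (by simp)) (by rw [hx, hc', mul_pow, hr, map_mul, map_pow])
      rw [hz, IsScalarTower.algebraMap_apply k K Ω]
      exact mul_mem (IntermediateField.algebraMap_mem _ _)
        (mul_mem (IntermediateField.subset_adjoin _ _ ⟨a, rfl⟩)
          (IntermediateField.algebraMap_mem _ _))
    · refine IntermediateField.adjoin.mono _ _ _ ?_
      rintro _ ⟨a, rfl⟩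
      exact ⟨f a, (f a).ne_zero, hf' a, hr a⟩
  rwa [h2]

omit [IsAlgClosed k] [Algebra k Ω] [IsScalarTower k K Ω] in
theorem rts_gal (hl : (l : K) ≠ 0) : IsGalois K (IntermediateField.adjoin K (rts k K Ω l)) := by
  have : IsAlgClosure K Ω := ⟨inferInstance, inferInstance⟩
  have h1 : Normal K (IntermediateField.adjoin K (rts k K Ω l)) := by
    refine IntermediateField.normal_iff_forall_map_le.2 fun σ => ?_
    rw [IntermediateField.adjoin_map]
    refine IntermediateField.adjoin.mono _ _ _ ?_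
    rintro _ ⟨x, ⟨g, g0, hg, hx⟩, rfl⟩
    exact ⟨g, g0, hg, by rw [← map_pow, hx, AlgHom.commutes]⟩
  have h2 : Algebra.IsSeparable K (IntermediateField.adjoin K (rts k K Ω l)) := by
    refine (IntermediateField.isSeparable_adjoin_iff_isSeparable K Ω).2 ?_
    rintro x ⟨g, g0, -, hx⟩
    exact (separable_X_pow_sub_C g hl g0).of_dvd (minpoly.dvd K x (by simp [hx]))
  exact ⟨⟩

omit [IsAlgClosed Ω] [Algebra.IsAlgebraic K Ω] in
theorem rts_act (hl : 0 < l) {L : IntermediateField K Ω} (γ : L ≃ₐ[K] L) {x : L}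
    (hx : (x : Ω) ∈ rts k K Ω l) : ∃ z : k, z ^ l = 1 ∧ γ x = algebraMap k L z * x := by
  obtain ⟨g, g0, -, hx⟩ := hx
  have h1 : x ^ l = algebraMap K L g := Subtype.ext hx
  refine exists_root_one k hl (fun e => ?_) (by rw [← map_pow, h1, AlgEquiv.commutes])
  rw [e, zero_pow hl.ne', eq_comm, map_eq_zero] at h1
  exact g0 h1

omit [IsAlgClosed k] in
/-- An element fixed by all automorphisms over `L` is purely inseparable over `L`. -/
theorem pow_mem_of_fix (p : ℕ) [Fact p.Prime] [CharP k p] (L : IntermediateField K Ω) (x : Ω)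
    (hx : ∀ τ : Ω ≃ₐ[K] Ω, (∀ y ∈ L, τ y = y) → τ x = x) :
    ∃ j : ℕ, ∀ i, j ≤ i → x ^ p ^ i ∈ L := by
  classical
  have : IsAlgClosure L Ω := ⟨inferInstance, Algebra.IsAlgebraic.tower_top (K := K) L⟩
  have : CharP L p := charP_of_injective_algebraMap (algebraMap k L).injective p
  have : ExpChar L p := ExpChar.prime Fact.out
  have hi : IsIntegral L x := Algebra.IsIntegral.isIntegral x
  have h1 : ((minpoly L x).aroots Ω).toFinset = {x} := by
    ext y
    rw [Multiset.mem_toFinset, ← isConjRoot_iff_mem_minpoly_aroots hi, Finset.mem_singleton]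
    constructor
    · intro h
      obtain ⟨σ, hσ⟩ := h.symm.exists_algEquiv
      rw [← hσ]
      exact hx (σ.restrictScalars K) fun y hy => σ.commutes ⟨y, hy⟩
    · rintro rfl
      rfl
  have h2 : (minpoly L x).natSepDegree = 1 := by
    rw [natSepDegree_eq_of_isAlgClosed Ω, h1, Finset.card_singleton]
  obtain ⟨j, y, hy⟩ := (minpoly.natSepDegree_eq_one_iff_pow_mem p).1 h2
  refine ⟨j, fun i hi => ?_⟩
  obtain ⟨d, rfl⟩ := Nat.exists_eq_add_of_le hi
  rw [pow_add, pow_mul, ← hy]
  exact pow_mem y.2 _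

end

/-- The Kummer cover exists. -/
theorem cov (hG : StmtGAL) : StmtCOV := by
  intro k K Ω _ _ _ _ _ _ _ _ _ _ l p _ _ _ hK hlp hV
  have hl : 0 < l := (Fact.out : l.Prime).pos
  have : CharP K p := charP_of_injective_algebraMap (algebraMap k K).injective p
  have hlK : (l : K) ≠ 0 := fun h =>
    hlp ((Nat.prime_dvd_prime_iff_eq Fact.out Fact.out).1 ((CharP.cast_eq_zero_iff K p l).1 h)).symm
  have : IsAlgClosure K Ω := ⟨inferInstance, inferInstance⟩
  have hfd : FiniteDimensional K (IntermediateField.adjoin K (rts k K Ω l)) := rts_fd hV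
  have hgal : IsGalois K (IntermediateField.adjoin K (rts k K Ω l)) := rts_gal hlK
  have hc : ∀ (γ : IntermediateField.adjoin K (rts k K Ω l) ≃ₐ[K]
      IntermediateField.adjoin K (rts k K Ω l)) (z : k), γ (algebraMap k _ z) = algebraMap k _ z :=
    fun γ z => by rw [IsScalarTower.algebraMap_apply k K, γ.commutes]
  refine ⟨IntermediateField.adjoin K (rts k K Ω l), hfd, hgal,
    fun f r h0 h1 h2 => IntermediateField.subset_adjoin _ _ ⟨f, h0, h1, h2⟩,
    fun τ hτ x hx => ?_, fun γ δ => ?_, fun γ => ?_, ?_,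
    fun γ => ⟨γ.liftNormal Ω, fun x => γ.liftNormal_commutes Ω x⟩, pow_mem_of_fix (k := k) p _⟩
  · induction hx using IntermediateField.adjoin_induction with
    | mem x hx => obtain ⟨f, h0, h1, h2⟩ := hx; exact hτ f x h0 h1 h2
    | algebraMap x => exact τ.commutes x
    | add x y _ _ hx hy => rw [map_add, hx, hy]
    | inv x _ hx => rw [map_inv₀, hx]
    | mul x y _ _ hx hy => rw [map_mul, hx, hy]
  · apply AlgEquiv.coe_toAlgHom_injective
    refine IntermediateField.algHom_ext_of_eq_adjoin K rfl fun x hx => ?_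
    obtain ⟨z, -, hz⟩ := rts_act (k := k) hl γ (x := ⟨x, IntermediateField.subset_adjoin _ _ hx⟩) hx
    obtain ⟨w, -, hw⟩ := rts_act (k := k) hl δ (x := ⟨x, IntermediateField.subset_adjoin _ _ hx⟩) hx
    show γ (δ _) = δ (γ _)
    rw [hz, hw, map_mul, map_mul, hc, hc, hz, hw, mul_left_comm]
  · apply AlgEquiv.coe_toAlgHom_injective
    refine IntermediateField.algHom_ext_of_eq_adjoin K rfl fun x hx => ?_
    obtain ⟨z, hz1, hz⟩ :=
      rts_act (k := k) hl γ (x := ⟨x, IntermediateField.subset_adjoin _ _ hx⟩) hx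
    have h1 : ∀ n : ℕ, (γ ^ n) ⟨x, IntermediateField.subset_adjoin _ _ hx⟩ =
        algebraMap k _ (z ^ n) * ⟨x, IntermediateField.subset_adjoin _ _ hx⟩ := fun n => by
      induction n with
      | zero => simp
      | succ n ih =>
        rw [pow_succ', AlgEquiv.mul_apply, ih, map_mul, hc, hz, pow_succ, map_mul, mul_assoc]
    show (γ ^ l) _ = _
    rw [h1, hz1, map_one, one_mul]
    rfl
  · refine (hG k K _ hK).2.2 l Fact.out (Subtype.val ⁻¹' rts k K Ω l) ?_ ?_
    · apply IntermediateField.lift_injective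
      rw [IntermediateField.lift_adjoin, IntermediateField.lift_top,
        Set.image_preimage_eq_of_subset]
      exact fun x hx => ⟨⟨x, IntermediateField.subset_adjoin _ _ hx⟩, rfl⟩
    · rintro r ⟨f, h0, h1, h2⟩
      exact ⟨f, h0, h1, Subtype.ext h2⟩

end Pool.Agent.MP_cce4c9_lc.H14
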