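import Pool.Agent.MP_cce4c9_lc.H7.Spec

/-! Places in a finite extension of a function field: restriction, ramification indices and the
fundamental equality. -/

set_option autoImplicit false

open WithZero Finsupp Module
open scoped IntermediateField

namespace Pool.Agent.MP_cce4c9_lc.H14

open Pool.Agent.MP_cce4c9_lc.H87 Pool.Agent.MP_cce4c9_lc.H7

section One

variable {k K : Type} [Field k] [Field K] [Algebra k K]

theorem transc [IsAlgClosed k] {s : K} (hs : s ∉ Set.range (algebraMap k K)) :
    Transcendental k s := fun h =>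
  hs (minpoly.degree_eq_one_iff.1
    (IsAlgClosed.degree_eq_one_of_irreducible k (minpoly.irreducible h.isIntegral)))

theorem fd_of_transc (hK : IsFF k K) {s : K} (hs : Transcendental k s) :
    FiniteDimensional k⟮s⟯ K := by
  obtain ⟨t, -, hfd⟩ := hK
  have h1 : Algebra.trdeg k K ≤ Cardinal.mk Unit := by
    have : Algebra.IsAlgebraic (Algebra.adjoin k ({t} : Set K)) K := by
      have : Algebra.IsAlgebraic k⟮t⟯ K := Algebra.IsAlgebraic.of_finite _ _
      exact (IntermediateField.isAlgebraic_adjoin_iff_top).1 this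
    simpa using Algebra.IsAlgebraic.trdeg_le_cardinalMk k ({t} : Set K)
  have h2 := ((algebraicIndependent_unique_type_iff (x := fun _ : Unit => s)).2
    hs).isTranscendenceBasis_of_trdeg_le_of_finite h1
  have h3 : Algebra.IsAlgebraic k⟮s⟯ K := by
    have := h2.isAlgebraic_field
    rwa [Set.range_const] at this
  have h4 : Algebra.EssFiniteType k k⟮t⟯ :=
    IntermediateField.essFiniteType_iff.2 (IntermediateField.fg_adjoin_of_finite (by simp))
  have h5 : Algebra.EssFiniteType k K := Algebra.EssFiniteType.comp k k⟮t⟯ K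
  have h6 : Algebra.EssFiniteType k⟮s⟯ K := Algebra.EssFiniteType.of_comp k k⟮s⟯ K
  exact Algebra.finite_of_essFiniteType_of_isAlgebraic

theorem dv_ap_of_pos {s : K} (h : 0 < (dv k s ⊔ 0).degree) (v : Place k K) :
    dv k s v = v.ord s := by
  refine dv_apply ?_ v
  by_contra H
  rw [dv, dif_neg H] at h
  simp at h

/-- A function whose only zero is a given place. -/
theorem exists_one_zero [IsAlgClosed k] (hR : StmtRI) (hK : IsFF k K) (x : Place k K) :
    ∃ s : K, s ∉ Set.range (algebraMap k K) ∧ ∀ v, v ≠ x → v.ord s ≤ 0 := by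
  obtain ⟨γ, hγ⟩ := (hR k K hK).1
  have h1 := hγ (single x (γ + 1))
  rw [degree_single] at h1
  have h2 : ¬ LL (single x ((γ : ℤ) + 1)) ≤ Submodule.span k {(1 : K)} := fun h => by
    have h3 := Submodule.finrank_mono h
    have h4 := finrank_span_singleton (K := k) (one_ne_zero (α := K))
    omega
  obtain ⟨h, hm, hn⟩ := SetLike.not_le_iff_exists.1 h2
  have hc : h ∉ Set.range (algebraMap k K) := by
    rintro ⟨c, rfl⟩
    exact hn (Submodule.mem_span_singleton.2 ⟨c, (Algebra.algebraMap_eq_smul_one c).symm⟩)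
  have h0 : h ≠ 0 := fun e => hc ⟨0, by simp [e]⟩
  refine ⟨h⁻¹, ?_, fun v hv => ?_⟩
  · rintro ⟨c, e⟩
    exact hc ⟨c⁻¹, by rw [map_inv₀, e, inv_inv]⟩
  · have h5 := mem_LL.1 hm v
    rw [single_eq_of_ne hv, v.val_le_exp (v.val_ne h0)] at h5
    rw [v.ord_inv]
    omega

end One

section Two

variable {k K L : Type} [Field k] [Field K] [Algebra k K] [Field L] [Algebra k L] [Algebra K L]
  [IsScalarTower k K L]

theorem finrank_adjoin_map (s : K) :
    finrank k⟮algebraMap K L s⟯ L = finrank k⟮s⟯ K * finrank K L := by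
  rw [Module.finrank_mul_finrank]
  have e : k⟮s⟯.map (IsScalarTower.toAlgHom k K L) = k⟮algebraMap K L s⟯ := by
    rw [IntermediateField.adjoin_map, Set.image_singleton]; rfl
  symm
  refine Algebra.finrank_eq_of_equiv_equiv
    (((k⟮s⟯).equivMap (IsScalarTower.toAlgHom k K L)).trans
      (IntermediateField.equivOfEq e)).toRingEquiv (RingEquiv.refl L) ?_
  ext z
  rfl

theorem isFF_of_finite [FiniteDimensional K L] (hK : IsFF k K) : IsFF k L := by
  obtain ⟨t, ht, hfd⟩ := hK
  refine ⟨algebraMap K L t, (transcendental_algebraMap_iff (algebraMap K L).injective).2 ht, ?_⟩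
  apply FiniteDimensional.of_finrank_pos
  rw [finrank_adjoin_map]
  exact Nat.mul_pos finrank_pos finrank_pos

omit [IsScalarTower k K L] in
theorem over_ord {y : Place k L} {x : Place k K} {e : ℕ} (H : Over y x e) (h : K) :
    y.ord (algebraMap K L h) = e * x.ord h := by
  rw [Place.ord, H.2, log_pow, Place.ord]
  simp

theorem exists_over [IsAlgClosed k] [FiniteDimensional K L] (hD : StmtDVR) (hK : IsFF k K)
    (y : Place k L) : ∃ p : Place k K × ℕ, Over y p.1 p.2 := by
  have hO : y.val.valuationSubring.comap (algebraMap K L) ≠ ⊤ := fun H => by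
    have h1 : ∀ h : K, algebraMap K L h ∈ y.val.integer := fun h => by
      have : h ∈ y.val.valuationSubring.comap (algebraMap K L) := H ▸ ValuationSubring.mem_top h
      exact this
    obtain ⟨z, hz⟩ := y.surj (exp 1)
    have h2 : IsIntegral y.val.integer z :=
      (Algebra.IsIntegral.isIntegral (R := K) z).map_of_comp_eq
        ((algebraMap K L).codRestrict _ h1) (RingHom.id L) rfl
    have h3 : y.val z ≤ 1 := (Valuation.integer.integers y.val).mem_of_integral h2
    rw [hz, ← exp_zero, exp_le_exp] at h3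
    omega
  obtain ⟨x, hx⟩ := hD k K hK _ (fun c => by
    show y.val (algebraMap K L (algebraMap k K c)) ≤ 1
    rw [← IsScalarTower.algebraMap_apply]
    exact y.const_le c) hO
  have hx' : ∀ h : K, h ≠ 0 → (0 ≤ y.ord (algebraMap K L h) ↔ 0 ≤ x.ord h) := fun h h0 => by
    rw [← x.val_le_one (x.val_ne h0), ← hx, ← y.val_le_one (y.val_ne (by simpa using h0))]
    rfl
  obtain ⟨π, hπ⟩ := x.exists_unif
  have hπ0 : π ≠ 0 := fun e => by simp [e] at hπ; exact exp_ne_zero hπ.symm
  have hπ1 := x.ord_eq hπ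
  have he : 0 < y.ord (algebraMap K L π) := by
    have := hx' π⁻¹ (inv_ne_zero hπ0)
    rw [map_inv₀, y.ord_inv, x.ord_inv] at this
    omega
  obtain ⟨e, he'⟩ := Int.eq_ofNat_of_zero_le he.le
  refine ⟨(x, e), by omega, fun h => ?_⟩
  by_cases h0 : h = 0
  · rw [h0, map_zero, map_zero, map_zero, zero_pow (by omega)]
  have hu0 : h * π ^ (-x.ord h) ≠ 0 := mul_ne_zero h0 (zpow_ne_zero _ hπ0)
  have hu : x.ord (h * π ^ (-x.ord h)) = 0 := by
    rw [x.ord_mul (x.val_ne h0) (x.val_ne (zpow_ne_zero _ hπ0)), x.ord_zpow, hπ1]; ring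
  have h1 := hx' _ hu0
  have h2 := hx' _ (inv_ne_zero hu0)
  rw [map_inv₀, y.ord_inv, x.ord_inv] at h2
  have h3 : y.ord (algebraMap K L (h * π ^ (-x.ord h))) = 0 := by omega
  have hL : algebraMap K L h ≠ 0 := by simpa using h0
  have hπL : algebraMap K L π ≠ 0 := by simpa using hπ0
  rw [map_mul, map_zpow₀, y.ord_mul (y.val_ne hL) (y.val_ne (zpow_ne_zero _ hπL)), y.ord_zpow,
    he'] at h3
  rw [y.val_eq (y.val_ne hL), x.val_eq (x.val_ne h0), ← exp_nsmul]
  congr 1
  simp only [nsmul_eq_mul]
  linarith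

end Two

/-- Places in a finite extension, from Riemann's inequality. -/
theorem ext (hD : StmtDVR) (hG : StmtDEG) (hR : StmtRI) : StmtEXT := by
  intro k K L _ _ _ _ _ _ _ _ _ hK
  have hL : IsFF k L := isFF_of_finite hK
  choose p hp using exists_over (L := L) hD hK
  refine ⟨fun y => (p y).1, fun y => (p y).2, hp, fun x => ?_⟩
  obtain ⟨s, hs, hz⟩ := exists_one_zero hR hK x
  have hs' : algebraMap K L s ∉ Set.range (algebraMap k L) := by
    rintro ⟨c, e⟩
    exact hs ⟨c, (algebraMap K L).injective (by rw [← IsScalarTower.algebraMap_apply, e])⟩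
  have := fd_of_transc hK (transc hs)
  have hm : 0 < finrank k⟮s⟯ K := finrank_pos
  have hn : 0 < finrank K L := finrank_pos
  have h1 := (hG k K hK).1 s hs
  have h2 := (hG k L hL).1 _ hs'
  rw [finrank_adjoin_map] at h2
  have a1 := dv_ap_of_pos (k := k) (s := s) (by rw [h1]; exact_mod_cast hm)
  have a2 := dv_ap_of_pos (k := k) (s := algebraMap K L s)
    (by rw [h2]; exact_mod_cast Nat.mul_pos hm hn)
  have h3 : dv k s ⊔ 0 = single x (x.ord s ⊔ 0) := by
    ext v
    rw [Finsupp.sup_apply, a1]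
    by_cases hv : v = x
    · rw [hv, single_eq_same]; rfl
    · rw [single_eq_of_ne hv]; exact sup_eq_right.2 (hz v hv)
  rw [h3, degree_single] at h1
  have h4 : x.ord s = finrank k⟮s⟯ K := by omega
  have h5 : ∀ y, y ∈ (dv k (algebraMap K L s) ⊔ 0).support ↔ (p y).1 = x := fun y => by
    rw [Finsupp.mem_support_iff, Finsupp.sup_apply, a2, over_ord (hp y)]
    have h6 : (0 : ℤ) < (p y).2 := by exact_mod_cast (hp y).1
    constructor
    · intro H
      by_contra hv
      exact H (sup_eq_right.2 (mul_nonpos_of_nonneg_of_nonpos h6.le (hz _ hv)))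
    · intro H
      rw [H, h4]
      exact (lt_sup_of_lt_left (mul_pos h6 (by exact_mod_cast hm))).ne'
  refine ⟨_, h5, ?_⟩
  rw [degree_apply, Finset.sum_congr rfl (g := fun y => ((p y).2 : ℤ) * finrank k⟮s⟯ K)
    fun y hy => by
      rw [Finsupp.sup_apply, a2, over_ord (hp y), (h5 y).1 hy, h4]
      exact sup_eq_left.2 (by positivity), ← Finset.sum_mul, Nat.cast_mul, mul_comm] at h2
  have h7 := mul_left_cancel₀ (by exact_mod_cast hm.ne') h2
  exact_mod_cast h7

end Pool.Agent.MP_cce4c9_lc.H14
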