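import Pool.Agent.MP_cce4c9_lc.H87.SpecR

/-!
Semantics of the routines for Taylor matrices.
-/

set_option autoImplicit false

open Polynomial Finset

namespace Pool.Agent.MP_cce4c9_lc.H14

open H87

namespace Tay

variable {A : Ds} {R S : Type} [CommRing R] [CommRing S] {φ : El → S}

theorem toP_derL (h : Hm A φ) (F : List El) : toP φ (derL A F) = derivative (toP φ F) := by
  ext i
  rw [coeff_derivative, coeff_toP h.nil, coeff_toP h.nil]
  by_cases hi : i < F.length - 1
  · rw [List.getD_eq_getElem _ _ (by simpa [derL] using hi)]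
    simp [derL, h.mul, h.cst, mul_comm]
  · rw [List.getD_eq_default _ _ (by simpa [derL] using hi), List.getD_eq_default _ _ (by omega),
      h.nil, zero_mul]

variable (h : Hm A φ) (E : R[X] →+* S) {τ : El} (hτ : φ τ = E X) {F : List El} {f : R[X]}
  (hF : toP φ F = f.map (E.comp C))
include h hF

theorem horner_eq {x : El} {a : R} (hx : φ x = E (C a)) :
    φ (horner A F x) = E (C (f.eval a)) := by
  rw [h.horner, hF, hx, eval_map]
  exact eval₂_at_apply (E.comp C) a

include hτ

theorem tayE_eq {x z : El} {a c : R} (hx : φ x = E (C a)) (hz : φ z = E (C c)) (L : ℕ) :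
    φ (tayE A τ F L x z) = E (eta f a c L) := by
  induction L with
  | zero => simp [tayE, H87.eta, h.cst]
  | succ L ih =>
    rw [tayE, Function.iterate_succ_apply', ← tayE, h.mul, h.sub, h.sub, h.sub, h.mul, ih,
      horner_eq h E hF hx, horner_eq h E (by rw [toP_derL h, hF, derivative_map]) hx, h.horner,
      h.add, ih, hx, hz, hτ, hF, eval_map, ← map_add, ← hom_eval₂]
    simp only [H87.eta, map_mul, map_sub, comp]

theorem tcolA_eq (d m L : ℕ) {b : List El} {β : ℕ → R} (hb : ∀ i, φ (b.getD i []) = E (C (β i)))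
    (j a J : ℕ) : φ (tcolA A τ F d m L b (2 * m * j) a J) =
      E (tcol f d m L (xs m β j) (zs m β j) a J) := by
  rw [tcolA, h.mul, h.pw, h.add, horner_eq h E hF (hb _), h.prodL_range, hτ, tcol, map_mul,
    map_pow, map_add, map_prod]
  congr 1
  refine prod_congr rfl fun i _ => ?_
  rw [h.pw, h.add, tayE_eq h E hτ hF (hb _) (hb _), hb, map_pow, map_add]
  rfl

end Tay

open Tay in
theorem tay (hN : StmtNAT) : StmtTAY := by
  intro B R S _ _ π P fl d m l f b hI hl
  obtain ⟨R', _, ⟨T⟩⟩ := exists_tow π (h := List.replicate (l * mm d m) [])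
    (by simpa using hl.ne') 1
  have h1 : ∀ ρ e J, ρ.2 < l * mm d m → P (π.val (TA B fl d m l b ρ e J)) =
      TT f d m l (fun i => P (π.val (b.getD i []))) ρ e J := by
    intro ρ e J hρ
    rw [← hI.2.2, ← (hN.1 R S P _ d m l _).1]
    congr 1
    refine T.trunc_one _ ?_ hρ
    refine tcolA_eq T.π'.hm (eval₂RingHom T.inc _) (by simp [rt1]) ?_ d m _ (fun i => ?_) _ _ _
    · rw [fullL, tr1, toP_append_one _ ((T.π'.hm.cst 1).trans Nat.cast_one), toM_map, toM, toM]
      congr 1
      exact toP_congr fun a ha => by simp [T.val_inc a (hI.2.1 a ha)]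
    · have : (b.map (tk B)).getD i [] = tk B (b.getD i []) := by
        rw [← List.getD_map b [] (tk B), tk, List.take_nil]
      rw [this, T.val_inc _ (by simp [tk, dim]), coe_eval₂RingHom, eval₂_C]
      exact congrArg _ (π.val_take _)
  have h := π.hm.comp P
  refine ⟨h1, fun U e J hU => ?_, fun c ρ hρ => ?_⟩
  · have hU' : ∀ i, (U.getD i (0, 0)).2 < l * mm d m := fun i => by
      by_cases hi : i < U.length
      · rw [List.getD_eq_getElem _ _ hi]
        exact hU _ (List.getElem_mem hi)
      · rw [List.getD_eq_default _ _ (not_lt.1 hi)]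
        exact hl
    refine (h.det_mat _ _).trans (congrArg Matrix.det ?_)
    ext i j
    simp only [Matrix.of_apply]
    split_ifs
    · rw [h.neg, h1 _ _ _ (hU' i)]
    · exact h1 _ _ _ (hU' i)
  · refine (h.sumL_range _ _).trans (sum_congr rfl fun J _ => ?_)
    refine (h.sumL_range _ _).trans (sum_congr rfl fun e _ => ?_)
    rw [h.mul, h1 _ _ _ hρ]
    rfl

end Pool.Agent.MP_cce4c9_lc.H14
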